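import Pool.Agent.T9h5.NF.ZagDef

/-!
# Zagier's conjecture (rank part) from `SpanPerN`
-/

set_option autoImplicit false
set_option linter.unusedSectionVars false

namespace Pool.Agent.T9h5.NF

open NumberField Pool.Agent.T9h77.NF
open scoped TensorProduct

/-! ### linear algebra -/

section lin

theorem sum_ite_range {W : Type} [AddCommMonoid W] (m M : ℕ) (h : m ≤ M) (f : ℕ → W) :
    ∑ μ ∈ Finset.range M, (if μ < m then f μ else 0) = ∑ μ ∈ Finset.range m, f μ := by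
  rw [← Finset.sum_filter]
  congr 1
  ext μ
  simp only [Finset.mem_filter, Finset.mem_range]
  omega

theorem factor {V U W : Type} [AddCommGroup V] [Module ℚ V] [AddCommGroup U] [Module ℚ U]
    [AddCommGroup W] [Module ℚ W] (δ : V →ₗ[ℚ] U) (θ : V →ₗ[ℚ] W)
    (h : ∀ v, δ v = 0 → θ v = 0) : ∃ f : U →ₗ[ℚ] W, ∀ v, θ v = f (δ v) := by
  let δ' : (V ⧸ LinearMap.ker δ) →ₗ[ℚ] U := (LinearMap.ker δ).liftQ δ le_rfl
  have hinj : LinearMap.ker δ' = ⊥ := Submodule.ker_liftQ_eq_bot _ _ _ le_rfl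
  obtain ⟨s, hs⟩ := LinearMap.exists_leftInverse_of_injective δ' hinj
  let θ' : (V ⧸ LinearMap.ker δ) →ₗ[ℚ] W := (LinearMap.ker δ).liftQ θ (fun v hv => h v hv)
  refine ⟨θ' ∘ₗ s, fun v => ?_⟩
  have h1 := LinearMap.congr_fun hs ((LinearMap.ker δ).mkQ v)
  rw [LinearMap.comp_apply, LinearMap.id_apply] at h1
  have h2 : δ' ((LinearMap.ker δ).mkQ v) = δ v := rfl
  rw [h2] at h1
  rw [LinearMap.comp_apply, h1]
  rfl

theorem span_basis {I : Type} [Fintype I] (G : Submodule ℚ (I → ℝ)) {κ : Type} 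
    (b : Module.Basis κ ℚ G) (hs : Submodule.span ℝ (G : Set (I → ℝ)) = ⊤) :
    ⊤ ≤ Submodule.span ℝ (Set.range fun i => (b i : I → ℝ)) := by
  rw [← hs]
  apply Submodule.span_le.2
  intro a ha
  have h1 : (⟨a, ha⟩ : G) ∈ Submodule.span ℚ (Set.range b) := by rw [b.span_eq]; trivial
  have h2 : ∀ c ∈ Submodule.span ℚ (Set.range b),
      (c : I → ℝ) ∈ Submodule.span ℝ (Set.range fun i => (b i : I → ℝ)) := by
    intro c hc
    induction hc using Submodule.span_induction with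
    | mem x hx =>
      obtain ⟨i, rfl⟩ := hx
      exact Submodule.subset_span ⟨i, rfl⟩
    | zero => exact Submodule.zero_mem _
    | add x y _ _ hx hy => exact Submodule.add_mem _ hx hy
    | smul c x _ hx =>
      have h3 : ((c • x : G) : I → ℝ) = (c : ℝ) • (x : I → ℝ) := by
        rw [Submodule.coe_smul]
        funext i
        simp [Rat.smul_def]
      rw [h3]
      exact Submodule.smul_mem _ _ hx
  exact h2 _ h1

theorem finrank_eq {I : Type} [Fintype I] (G : Submodule ℚ (I → ℝ))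
    (hr : Module.rank ℚ G ≤ Fintype.card I)
    (hs : Submodule.span ℝ (G : Set (I → ℝ)) = ⊤) :
    Module.Finite ℚ G ∧ Module.finrank ℚ G = Fintype.card I := by
  have hfin : Module.Finite ℚ G := by
    rw [← Module.rank_lt_aleph0_iff]
    exact lt_of_le_of_lt hr (Cardinal.natCast_lt_aleph0)
  refine ⟨hfin, ?_⟩
  have h1 : Module.finrank ℚ G ≤ Fintype.card I := by
    rw [← Module.finrank_eq_rank] at hr
    exact_mod_cast hr
  have h2 := span_basis G (Module.finBasis ℚ G) hs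
  have h3 : Module.finrank ℝ (I → ℝ) ≤ Module.finrank ℚ G := by
    have h4 := finrank_range_le_card (R := ℝ) (fun i => (Module.finBasis ℚ G i : I → ℝ))
    rw [Set.finrank, top_le_iff.1 h2, finrank_top, Fintype.card_fin] at h4
    exact h4
  rw [Module.finrank_fintype_fun_eq_card] at h3
  omega

theorem extW {I : Type} [Fintype I] (G : Submodule ℚ (I → ℝ))
    (hr : Module.rank ℚ G ≤ Fintype.card I)
    (hs : Submodule.span ℝ (G : Set (I → ℝ)) = ⊤) {W : Type} [AddCommGroup W] [Module ℝ W]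
    [Module ℚ W] [IsScalarTower ℚ ℝ W] (g : G →ₗ[ℚ] W) :
    ∃ T : (I → ℝ) →ₗ[ℝ] W, ∀ a : G, T a = g a := by
  obtain ⟨hfin, hcard⟩ := finrank_eq G hr hs
  let b := Module.finBasis ℚ G
  have h2 := span_basis G b hs
  let B := basisOfTopLeSpanOfCardEqFinrank (fun i => (b i : I → ℝ)) h2 (by
    rw [Fintype.card_fin, Module.finrank_fintype_fun_eq_card, hcard])
  refine ⟨B.constr ℝ (fun i => g (b i)), fun a => ?_⟩
  have h3 : ((B.constr ℝ (fun i => g (b i))).restrictScalars ℚ) ∘ₗ G.subtype = g := by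
    apply b.ext
    intro i
    rw [LinearMap.comp_apply, LinearMap.restrictScalars_apply, Submodule.subtype_apply]
    have h4 : (b i : I → ℝ) = B i := by
      simp [B]
    rw [h4, Module.Basis.constr_basis]
  have h4 := LinearMap.congr_fun h3 a
  exact h4

end lin

/-! ### forms -/

section forms

variable {K : Type} [Field K] [NumberField K] (X : Set K) (L : ℕ → ℂ → ℝ)

/-- functions `∑_μ Q_μ(x,..,x;1-x) + ∑_(v,j) L_j(σ_v x) ∑_μ P_(v,j,μ)(x,..,x)`. -/
def HasForm (W : Type) [AddCommGroup W] [Module ℝ W] (N : ℕ) (θ : X → W) : Prop :=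
  ∃ (m : ℕ) (Q : ∀ μ : ℕ, MultilinearMap ℝ (fun _ : Fin μ => VK K) (VK K →ₗ[ℝ] W))
    (P : ∀ (_ : InfinitePlace K) (_ : ℕ) (μ : ℕ), MultilinearMap ℝ (fun _ : Fin μ => VK K) W),
    ∀ x : X, θ x = ∑ μ ∈ Finset.range m, Q μ (fun _ => cr (x : K)) (cr (1 - (x : K))) +
      ∑ v, ∑ j ∈ wts K N v,
        L j (v.embedding (x : K)) • ∑ μ ∈ Finset.range m, P v j μ (fun _ => cr (x : K))

variable {X L} {W : Type} [AddCommGroup W] [Module ℝ W]

theorem HasForm.add {N : ℕ} {θ θ' : X → W} (h : HasForm X L W N θ) (h' : HasForm X L W N θ') :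
    HasForm X L W N (fun x => θ x + θ' x) := by
  obtain ⟨m, Q, P, h⟩ := h
  obtain ⟨m', Q', P', h'⟩ := h'
  refine ⟨max m m', fun μ => (if μ < m then Q μ else 0) + (if μ < m' then Q' μ else 0),
    fun v j μ => (if μ < m then P v j μ else 0) + (if μ < m' then P' v j μ else 0),
    fun x => ?_⟩
  beta_reduce
  rw [h x, h' x]
  have e1 : ∀ μ, ((if μ < m then Q μ else 0) + (if μ < m' then Q' μ else 0))
      (fun _ => cr (x : K)) (cr (1 - (x : K))) =
      (if μ < m then Q μ (fun _ => cr (x : K)) (cr (1 - (x : K))) else 0) +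
      (if μ < m' then Q' μ (fun _ => cr (x : K)) (cr (1 - (x : K))) else 0) := by
    intro μ
    split_ifs <;> simp
  have e2 : ∀ v j μ, ((if μ < m then P v j μ else 0) + (if μ < m' then P' v j μ else 0))
      (fun _ => cr (x : K)) =
      (if μ < m then P v j μ (fun _ => cr (x : K)) else 0) +
      (if μ < m' then P' v j μ (fun _ => cr (x : K)) else 0) := by
    intro v j μ
    split_ifs <;> simp
  simp only [e1, e2, Finset.sum_add_distrib, smul_add,
    sum_ite_range m (max m m') (le_max_left _ _), sum_ite_range m' (max m m') (le_max_right _ _)]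
  abel

theorem HasForm.congr {N : ℕ} {θ θ' : X → W} (h : HasForm X L W N θ) (he : ∀ x, θ' x = θ x) :
    HasForm X L W N θ' := by
  obtain ⟨m, Q, P, h⟩ := h
  exact ⟨m, Q, P, fun x => (he x).trans (h x)⟩

theorem mem_wts {N j : ℕ} {v : InfinitePlace K} :
    j ∈ wts K N v ↔ (2 ≤ j ∧ j ≤ N) ∧ (v.IsReal → Odd j) := by
  classical
  unfold wts
  rw [Finset.mem_filter, Finset.mem_Icc]

theorem HasForm.mono {N N' : ℕ} (hN : N ≤ N') {θ : X → W} (h : HasForm X L W N θ) :
    HasForm X L W N' θ := by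
  classical
  obtain ⟨m, Q, P, h⟩ := h
  refine ⟨m, Q, fun v j μ => if j ∈ wts K N v then P v j μ else 0, fun x => ?_⟩
  rw [h x]
  congr 1
  apply Finset.sum_congr rfl
  intro v _
  refine Eq.trans ?_ (Finset.sum_subset (s₁ := wts K N v) (s₂ := wts K N' v) ?_ ?_)
  · apply Finset.sum_congr rfl
    intro j hj
    simp only [if_pos hj]
  · intro j hj
    rw [mem_wts] at hj ⊢
    exact ⟨⟨hj.1.1, hj.1.2.trans hN⟩, hj.2⟩
  · intro j _ hj
    simp [if_neg hj]

/-- shift of the forms `Q`. -/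
noncomputable def shQ (Q : ∀ μ : ℕ, MultilinearMap ℝ (fun _ : Fin μ => VK K)
    (VK K →ₗ[ℝ] (VK K →ₗ[ℝ] W))) :
    ∀ μ : ℕ, MultilinearMap ℝ (fun _ : Fin μ => VK K) (VK K →ₗ[ℝ] W)
  | 0 => 0
  | (μ + 1) => MultilinearMap.uncurryRight (M := fun _ : Fin (μ + 1) => VK K)
      (LinearMap.lflip.compMultilinearMap (Q μ))

/-- shift of the forms `P`. -/
noncomputable def shP (P : ∀ μ : ℕ, MultilinearMap ℝ (fun _ : Fin μ => VK K) (VK K →ₗ[ℝ] W)) :
    ∀ μ : ℕ, MultilinearMap ℝ (fun _ : Fin μ => VK K) W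
  | 0 => 0
  | (μ + 1) => MultilinearMap.uncurryRight (M := fun _ : Fin (μ + 1) => VK K) (P μ)

theorem HasForm.shift {N : ℕ} {θ : X → (VK K →ₗ[ℝ] W)} (h : HasForm X L (VK K →ₗ[ℝ] W) N θ) :
    HasForm X L W N (fun x => θ x (cr (x : K))) := by
  obtain ⟨m, Q, P, h⟩ := h
  refine ⟨m + 1, shQ Q, fun v j => shP (P v j), fun x => ?_⟩
  beta_reduce
  rw [h x, LinearMap.add_apply, LinearMap.sum_apply, LinearMap.sum_apply, Finset.sum_range_succ']
  have e0 : shQ Q 0 (fun _ => cr (x : K)) (cr (1 - (x : K))) = 0 := rfl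
  have e1 : ∀ μ, shQ Q (μ + 1) (fun _ => cr (x : K)) (cr (1 - (x : K))) =
      Q μ (fun _ => cr (x : K)) (cr (1 - (x : K))) (cr (x : K)) := fun μ => rfl
  rw [e0, add_zero]
  simp only [e1]
  congr 1
  apply Finset.sum_congr rfl
  intro v _
  rw [LinearMap.sum_apply]
  apply Finset.sum_congr rfl
  intro j _
  rw [LinearMap.smul_apply, LinearMap.sum_apply, Finset.sum_range_succ']
  have e2 : shP (P v j) 0 (fun _ => cr (x : K)) = 0 := rfl
  have e3 : ∀ μ, shP (P v j) (μ + 1) (fun _ => cr (x : K)) =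
      P v j μ (fun _ => cr (x : K)) (cr (x : K)) := fun μ => rfl
  rw [e2, add_zero]
  simp only [e3]

theorem hasForm_reg {N j : ℕ} (hj : 2 ≤ j) (hN : j ≤ N) (T : Al K j → W) :
    HasForm X L W N (fun x => ∑ v : Al K j, L j (v.1.embedding (x : K)) • T v) := by
  classical
  let T' : InfinitePlace K → W := fun v => if h : (v.IsReal → Odd j) then T ⟨v, h⟩ else 0
  refine ⟨1, fun _ => 0, fun v j' μ => if j' = j then
    (match μ with
      | 0 => MultilinearMap.constOfIsEmpty ℝ (fun _ : Fin 0 => VK K) (T' v)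
      | (μ + 1) => 0) else 0, fun x => ?_⟩
  simp only [Finset.range_one, Finset.sum_singleton, zero_apply, LinearMap.zero_apply, zero_add]
  have h1 : ∀ v : InfinitePlace K, ∑ j' ∈ wts K N v, L j' (v.embedding (x : K)) •
      ((if j' = j then MultilinearMap.constOfIsEmpty ℝ (fun _ : Fin 0 => VK K) (T' v) else 0)
        (fun _ => cr (x : K))) = L j (v.embedding (x : K)) • T' v := by
    intro v
    by_cases hv : v.IsReal → Odd j
    · rw [Finset.sum_eq_single j]
      · simp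
      · intro j' _ hne
        simp [hne]
      · intro hn
        exact absurd (mem_wts.2 ⟨⟨hj, hN⟩, hv⟩) hn
    · have h2 : T' v = 0 := dif_neg hv
      rw [h2, smul_zero]
      apply Finset.sum_eq_zero
      intro j' _
      split_ifs <;> simp
  rw [Finset.sum_congr rfl fun v _ => h1 v]
  have h3 : ∑ v : Al K j, L j (v.1.embedding (x : K)) • T v =
      ∑ v : Al K j, L j (v.1.embedding (x : K)) • T' v.1 := by
    apply Finset.sum_congr rfl
    intro v _
    rw [show T' v.1 = T v from dif_pos v.2]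
  rw [h3, ← Finset.sum_subtype (Finset.univ.filter fun v : InfinitePlace K => v.IsReal → Odd j)
    (by simp) (fun v => L j (v.embedding (x : K)) • T' v), Finset.sum_filter]
  apply Finset.sum_congr rfl
  intro v _
  split_ifs with hv
  · rfl
  · rw [show T' v = 0 from dif_neg hv, smul_zero]

/-- extension of scalars of a form -/
noncomputable def ext1 (g : Additive Kˣ →ₗ[ℤ] W) : VK K →ₗ[ℝ] W := LinearMap.liftBaseChange ℝ g

theorem ext1_cr (g : Additive Kˣ →ₗ[ℤ] W) (x : K) : ext1 g (cr x) = g (H39Gon.cl x) := by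
  unfold ext1 cr
  rw [LinearMap.liftBaseChange_tmul, one_smul]

theorem ext1_add (g g' : Additive Kˣ →ₗ[ℤ] W) : ext1 (g + g') = ext1 g + ext1 g' := by
  apply TensorProduct.AlgebraTensorModule.ext
  intro r u
  unfold ext1
  rw [LinearMap.add_apply, LinearMap.liftBaseChange_tmul, LinearMap.liftBaseChange_tmul,
    LinearMap.liftBaseChange_tmul, LinearMap.add_apply, smul_add]

theorem wedge_add_left {V U : Type} [AddCommGroup V] [Module ℚ V] [AddCommGroup U] [Module ℚ U]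
    (f : ⋀[ℚ]^2 V →ₗ[ℚ] U) (b b' a : V) :
    f (exteriorPower.ιMulti ℚ 2 ![b + b', a]) =
      f (exteriorPower.ιMulti ℚ 2 ![b, a]) + f (exteriorPower.ιMulti ℚ 2 ![b', a]) := by
  have h : ∀ c : V, ![c, a] = Function.update ![0, a] 0 c := by
    intro c
    funext i
    fin_cases i <;> simp
  rw [h (b + b'), AlternatingMap.map_update_add, ← h, ← h, map_add]

theorem wedge_add_right {V U : Type} [AddCommGroup V] [Module ℚ V] [AddCommGroup U] [Module ℚ U]
    (f : ⋀[ℚ]^2 V →ₗ[ℚ] U) (b a a' : V) :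
    f (exteriorPower.ιMulti ℚ 2 ![b, a + a']) =
      f (exteriorPower.ιMulti ℚ 2 ![b, a]) + f (exteriorPower.ιMulti ℚ 2 ![b, a']) := by
  have h : ∀ c : V, ![b, c] = Function.update ![b, 0] 1 c := by
    intro c
    funext i
    fin_cases i <;> simp
  rw [h (a + a'), AlternatingMap.map_update_add, ← h, ← h, map_add]

/-- the form of a functional on `Λ²`. -/
noncomputable def bet [Module ℚ W] (f : ⋀[ℚ]^2 (VQ K) →ₗ[ℚ] W) (a : Additive Kˣ) :
    Additive Kˣ →ₗ[ℤ] W :=
  AddMonoidHom.toIntLinearMap (AddMonoidHom.mk'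
    (fun b => f (exteriorPower.ιMulti ℚ 2 ![(1 : ℚ) ⊗ₜ[ℤ] b, (1 : ℚ) ⊗ₜ[ℤ] a]))
    (fun b b' => by rw [TensorProduct.tmul_add, wedge_add_left]))

theorem bet_apply [Module ℚ W] (f : ⋀[ℚ]^2 (VQ K) →ₗ[ℚ] W) (a b : Additive Kˣ) :
    bet f a b = f (exteriorPower.ιMulti ℚ 2 ![(1 : ℚ) ⊗ₜ[ℤ] b, (1 : ℚ) ⊗ₜ[ℤ] a]) := rfl

theorem bet_add [Module ℚ W] (f : ⋀[ℚ]^2 (VQ K) →ₗ[ℚ] W) (a a' : Additive Kˣ) :
    bet f (a + a') = bet f a + bet f a' := by
  ext b
  rw [LinearMap.add_apply, bet_apply, bet_apply, bet_apply, TensorProduct.tmul_add,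
    wedge_add_right]

theorem hasForm_delta [Module ℚ W] (f : ⋀[ℚ]^2 (VQ K) →ₗ[ℚ] W) (N : ℕ) :
    HasForm X L W N (fun x => f (delta2 X (Finsupp.single x 1))) := by
  classical
  let g : Additive Kˣ →ₗ[ℤ] (VK K →ₗ[ℝ] W) :=
    AddMonoidHom.toIntLinearMap (AddMonoidHom.mk' (fun a => ext1 (bet f a))
      (fun a a' => by rw [bet_add, ext1_add]))
  refine ⟨2, fun μ => match μ with
    | 0 => 0
    | 1 => MultilinearMap.ofSubsingleton ℝ (VK K) (VK K →ₗ[ℝ] W) (0 : Fin 1) (ext1 g)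
    | (μ + 2) => 0, fun _ _ _ => 0, fun x => ?_⟩
  have h1 : delta2 X (Finsupp.single x 1) =
      exteriorPower.ιMulti ℚ 2 ![cq (1 - (x : K)), cq (x : K)] := by
    unfold delta2
    rw [Finsupp.linearCombination_single, one_smul]
  beta_reduce
  rw [h1, Finset.sum_range_succ, Finset.sum_range_one]
  have h2 : ext1 g (cr (x : K)) (cr (1 - (x : K))) =
      f (exteriorPower.ιMulti ℚ 2 ![cq (1 - (x : K)), cq (x : K)]) := by
    rw [ext1_cr]
    change ext1 (bet f (H39Gon.cl (x : K))) (cr (1 - (x : K))) = _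
    rw [ext1_cr, bet_apply]
    rfl
  simp [h2]

/-- the value of a functional on `(ℚ[X]/S) ⊗ K^×` as a functional on `ℚ[X]`. -/
noncomputable def cur [Module ℚ W] [IsScalarTower ℚ ℝ W] (S : Submodule ℚ (X →₀ ℚ))
    (f : ((X →₀ ℚ) ⧸ S) ⊗[ℚ] VQ K →ₗ[ℚ] W) : (X →₀ ℚ) →ₗ[ℚ] (VK K →ₗ[ℝ] W) where
  toFun α := ext1 (AddMonoidHom.toIntLinearMap (AddMonoidHom.mk'
    (fun b => f (S.mkQ α ⊗ₜ[ℚ] ((1 : ℚ) ⊗ₜ[ℤ] b)))
    (fun b b' => by rw [TensorProduct.tmul_add, TensorProduct.tmul_add, map_add])))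
  map_add' α β := by
    rw [← ext1_add]
    congr 1
    ext b
    change f (S.mkQ (α + β) ⊗ₜ[ℚ] ((1 : ℚ) ⊗ₜ[ℤ] b)) = f (S.mkQ α ⊗ₜ[ℚ] ((1 : ℚ) ⊗ₜ[ℤ] b)) +
      f (S.mkQ β ⊗ₜ[ℚ] ((1 : ℚ) ⊗ₜ[ℤ] b))
    rw [map_add, TensorProduct.add_tmul, map_add]
  map_smul' c α := by
    apply TensorProduct.AlgebraTensorModule.ext
    intro r u
    rw [RingHom.id_apply, LinearMap.smul_apply]
    unfold ext1
    rw [LinearMap.liftBaseChange_tmul, LinearMap.liftBaseChange_tmul]
    change r • f (S.mkQ (c • α) ⊗ₜ[ℚ] ((1 : ℚ) ⊗ₜ[ℤ] u)) =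
      c • r • f (S.mkQ α ⊗ₜ[ℚ] ((1 : ℚ) ⊗ₜ[ℤ] u))
    rw [map_smul, ← TensorProduct.smul_tmul', map_smul, smul_comm]

theorem cur_cr [Module ℚ W] [IsScalarTower ℚ ℝ W] (S : Submodule ℚ (X →₀ ℚ))
    (f : ((X →₀ ℚ) ⧸ S) ⊗[ℚ] VQ K →ₗ[ℚ] W) (α : X →₀ ℚ) (x : K) :
    cur S f α (cr x) = f (S.mkQ α ⊗ₜ[ℚ] cq x) := by
  change ext1 _ (cr x) = _
  rw [ext1_cr]
  rfl

theorem cur_zero [Module ℚ W] [IsScalarTower ℚ ℝ W] (S : Submodule ℚ (X →₀ ℚ))
    (f : ((X →₀ ℚ) ⧸ S) ⊗[ℚ] VQ K →ₗ[ℚ] W) (α : X →₀ ℚ) (h : α ∈ S) : cur S f α = 0 := by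
  apply TensorProduct.AlgebraTensorModule.ext
  intro r u
  rw [LinearMap.zero_apply]
  change ext1 _ (r ⊗ₜ[ℤ] u) = 0
  unfold ext1
  rw [LinearMap.liftBaseChange_tmul]
  change r • f (S.mkQ α ⊗ₜ[ℚ] ((1 : ℚ) ⊗ₜ[ℤ] u)) = 0
  rw [show S.mkQ α = 0 by rwa [Submodule.mkQ_apply, Submodule.Quotient.mk_eq_zero],
    TensorProduct.zero_tmul, map_zero, smul_zero]

theorem deltaS_single (S : Submodule ℚ (X →₀ ℚ)) (x : X) :
    deltaS X S (Finsupp.single x 1) = S.mkQ (Finsupp.single x 1) ⊗ₜ[ℚ] cq (x : K) := by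
  unfold deltaS
  rw [Finsupp.linearCombination_single, one_smul]

theorem reg_single (n : ℕ) (x : X) (v : Al K n) :
    reg X L n (Finsupp.single x 1) v = L n (v.1.embedding (x : K)) := by
  unfold reg
  rw [Finsupp.linearCombination_single, one_smul]

variable {S : ℕ → Submodule ℚ (X →₀ ℚ)}

/-- a functional on `ℚ[X]` which vanishes on `S_k` is a combination of the regulators on `A_k`. -/
theorem split [Module ℚ W] [IsScalarTower ℚ ℝ W] (k : ℕ)
    (hU : Module.rank ℚ (Reg X L S k) ≤ Fintype.card (Al K k))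
    (hS : Submodule.span ℝ (Reg X L S k : Set (Al K k → ℝ)) = ⊤) (θ : (X →₀ ℚ) →ₗ[ℚ] W)
    (h : ∀ α ∈ A X S k, reg X L k α = 0 → θ α = 0) :
    ∃ T : (Al K k → ℝ) →ₗ[ℝ] W, ∀ α ∈ A X S k, θ α = T (reg X L k α) := by
  let ρ : A X S k →ₗ[ℚ] Reg X L S k := (reg X L k).submoduleMap (A X S k)
  obtain ⟨s, hs⟩ := ρ.exists_rightInverse_of_surjective
    (LinearMap.range_eq_top.2 ((reg X L k).submoduleMap_surjective (A X S k)))
  obtain ⟨T, hT⟩ := extW (Reg X L S k) hU hS (θ ∘ₗ (A X S k).subtype ∘ₗ s)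
  refine ⟨T, fun α hα => ?_⟩
  have h1 := hT (ρ ⟨α, hα⟩)
  have h2 : ((ρ ⟨α, hα⟩ : Reg X L S k) : Al K k → ℝ) = reg X L k α := rfl
  rw [h2] at h1
  rw [h1]
  have h3 := LinearMap.congr_fun hs (ρ ⟨α, hα⟩)
  rw [LinearMap.comp_apply, LinearMap.id_apply] at h3
  have h4 : reg X L k (((s (ρ ⟨α, hα⟩)) : X →₀ ℚ) - α) = 0 := by
    have h5 := congrArg (fun a : Reg X L S k => (a : Al K k → ℝ)) h3
    rw [map_sub, sub_eq_zero]
    exact h5
  have h6 := h _ (Submodule.sub_mem _ (s (ρ ⟨α, hα⟩)).2 hα) h4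
  rw [map_sub, sub_eq_zero] at h6
  rw [LinearMap.comp_apply, LinearMap.comp_apply, Submodule.subtype_apply, h6]

/-- one step: `θ = T ∘ reg + f ∘ δ`. -/
theorem split2 [Module ℚ W] [IsScalarTower ℚ ℝ W] (k : ℕ) {U : Type} [AddCommGroup U] [Module ℚ U]
    (δ : (X →₀ ℚ) →ₗ[ℚ] U) (hA : A X S k = LinearMap.ker δ)
    (hU : Module.rank ℚ (Reg X L S k) ≤ Fintype.card (Al K k))
    (hS : Submodule.span ℝ (Reg X L S k : Set (Al K k → ℝ)) = ⊤) (θ : (X →₀ ℚ) →ₗ[ℚ] W)
    (h : ∀ α ∈ A X S k, reg X L k α = 0 → θ α = 0) :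
    ∃ (T : (Al K k → ℝ) →ₗ[ℝ] W) (f : U →ₗ[ℚ] W), ∀ α, θ α = T (reg X L k α) + f (δ α) := by
  obtain ⟨T, hT⟩ := split k hU hS θ h
  obtain ⟨f, hf⟩ := factor δ (θ - (T.restrictScalars ℚ) ∘ₗ reg X L k) (by
    intro α hα
    rw [LinearMap.sub_apply, LinearMap.comp_apply, LinearMap.restrictScalars_apply,
      hT α (by rw [hA]; exact hα), sub_self])
  refine ⟨T, f, fun α => ?_⟩
  rw [← hf, LinearMap.sub_apply, LinearMap.comp_apply, LinearMap.restrictScalars_apply]
  abel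

theorem apply_T (k : ℕ) (T : (Al K k → ℝ) →ₗ[ℝ] W) (x : X) :
    T (reg X L k (Finsupp.single x 1)) =
      ∑ v : Al K k, L k (v.1.embedding (x : K)) • T (Pi.single v 1) := by
  classical
  have h : reg X L k (Finsupp.single x 1) =
      ∑ v : Al K k, L k (v.1.embedding (x : K)) • (Pi.single v 1 : Al K k → ℝ) := by
    funext v
    rw [reg_single, Finset.sum_apply, Finset.sum_eq_single v]
    · simp
    · intro w _ hw
      simp [Pi.single_eq_of_ne (Ne.symm hw)]
    · simp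
  rw [h, map_sum]
  apply Finset.sum_congr rfl
  intro v _
  rw [map_smul]

/-- all functionals on `ℚ[X]/S_k`. -/
theorem formOf (k : ℕ)
    (hI : ∀ m, 2 ≤ m → m ≤ k + 2 → ∀ α ∈ A X S m, reg X L m α = 0 → α ∈ S m)
    (hU : ∀ m, 2 ≤ m → m ≤ k + 2 → Module.rank ℚ (Reg X L S m) ≤ Fintype.card (Al K m))
    (hS : ∀ m, 2 ≤ m → m ≤ k + 2 →
      Submodule.span ℝ (Reg X L S m : Set (Al K m → ℝ)) = ⊤) :
    ∀ (W : Type) [AddCommGroup W] [Module ℝ W] [Module ℚ W] [IsScalarTower ℚ ℝ W]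
      (θ : (X →₀ ℚ) →ₗ[ℚ] W), (∀ α ∈ S (k + 2), θ α = 0) →
      HasForm X L W (k + 2) (fun x => θ (Finsupp.single x 1)) := by
  induction k with
  | zero =>
    intro W _ _ _ _ θ hθ
    obtain ⟨T, f, h⟩ := split2 2 (delta2 X) rfl (hU 2 le_rfl le_rfl) (hS 2 le_rfl le_rfl) θ
      (fun α hα hr => hθ α (hI 2 le_rfl le_rfl α hα hr))
    have h1 : HasForm X L W 2 (fun x => ∑ v : Al K 2,
        L 2 (v.1.embedding (x : K)) • T (Pi.single v 1)) := hasForm_reg le_rfl le_rfl _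
    refine (h1.add (hasForm_delta f 2)).congr fun x => ?_
    rw [h, apply_T]
  | succ k ih =>
    intro W _ _ _ _ θ hθ
    obtain ⟨T, f, h⟩ := split2 (k + 3) (deltaS X (S (k + 2))) rfl
      (hU (k + 3) (by omega) le_rfl) (hS (k + 3) (by omega) le_rfl) θ
      (fun α hα hr => hθ α (hI (k + 3) (by omega) le_rfl α hα hr))
    have h1 : HasForm X L W (k + 3) (fun x => ∑ v : Al K (k + 3),
        L (k + 3) (v.1.embedding (x : K)) • T (Pi.single v 1)) :=
      hasForm_reg (by omega) le_rfl _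
    have h2 := (ih (fun m hm hk => hI m hm (by omega)) (fun m hm hk => hU m hm (by omega))
      (fun m hm hk => hS m hm (by omega))
      (VK K →ₗ[ℝ] W) (cur _ f) (fun α hα => cur_zero _ f α hα)).shift
    refine (h1.add (h2.mono (Nat.le_succ (k + 2)))).congr fun x => ?_
    rw [h, apply_T, cur_cr, deltaS_single]

/-- constant forms. -/
noncomputable def kc (a : ℝ) : ∀ μ : ℕ, MultilinearMap ℝ (fun _ : Fin μ => VK K) ℝ
  | 0 => MultilinearMap.constOfIsEmpty ℝ (fun _ : Fin 0 => VK K) a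
  | (_ + 1) => 0

theorem sum_kc (a : ℝ) (m : ℕ) (s : VK K) :
    ∑ μ ∈ Finset.range (m + 1), kc (K := K) a μ (fun _ => s) = a := by
  rw [Finset.sum_range_succ']
  have h1 : kc (K := K) a 0 (fun _ => s) = a := rfl
  have h2 : ∀ μ, kc (K := K) a (μ + 1) (fun _ => s) = 0 := fun μ => rfl
  simp [h1, h2]

theorem no_form (hK : SpanPerN K)
    (hX : ∀ x : K, x ≠ 0 → (∀ v : InfinitePlace K, ‖v.embedding x‖ < 1) → x ∈ X)
    (hL : ∀ (n : ℕ) (z : ℂ), 2 ≤ n → 0 < ‖z‖ → ‖z‖ < 1 → L n z = Lcv n z) (n : ℕ) (hn : 2 ≤ n)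
    (T : Al K n → ℝ) (hf : HasForm X L ℝ (n - 1) (fun x => ∑ v : Al K n,
        L n (v.1.embedding (x : K)) • T v)) (v : Al K n) : T v = 0 := by
  classical
  let T' : InfinitePlace K → ℝ := fun v => if h : (v.IsReal → Odd n) then T ⟨v, h⟩ else 0
  obtain ⟨m, Q, P, h⟩ := hf
  have key := hK (m + 1) n (fun μ => if (μ : ℕ) < m then Q μ else 0)
    (fun v j μ => if j = n then kc (-T' v) μ else if (μ : ℕ) < m then P v j μ else 0) (by
      intro x hx
      have hx0 : x ≠ 0 := by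
        intro h0
        have := (hx v.1).1
        rw [h0] at this
        simp [emb] at this
      have hxX : x ∈ X := hX x hx0 fun w => (hx w).2.1
      have h1 := h ⟨x, hxX⟩
      simp only at h1
      have hLx : ∀ (w : InfinitePlace K) (j : ℕ), 2 ≤ j →
          L j (w.embedding x) = Lcv j (emb x w) := fun w j hj => hL j _ hj (hx w).1 (hx w).2.1
      have e1 : ∑ μ : Fin (m + 1), (if (μ : ℕ) < m then Q μ else 0) (fun _ => cr x)
          (cr (1 - x)) = ∑ μ ∈ Finset.range m, Q μ (fun _ => cr x) (cr (1 - x)) := by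
        rw [← sum_ite_range m (m + 1) (Nat.le_succ m), Finset.sum_range]
        apply Finset.sum_congr rfl
        intro μ _
        split_ifs <;> simp
      have e2 : ∀ w : InfinitePlace K, ∑ j ∈ wts K n w, (∑ μ : Fin (m + 1),
          (if j = n then kc (-T' w) μ else if (μ : ℕ) < m then P w j μ else 0)
            (fun _ => cr x)) * Lcv j (emb x w) =
          ∑ j ∈ wts K (n - 1) w, L j (w.embedding x) •
            ∑ μ ∈ Finset.range m, P w j μ (fun _ => cr x) - L n (w.embedding x) * T' w := by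
        intro w
        have e3 : ∑ j ∈ wts K (n - 1) w, (∑ μ : Fin (m + 1),
            (if j = n then kc (-T' w) μ else if (μ : ℕ) < m then P w j μ else 0)
              (fun _ => cr x)) * Lcv j (emb x w) =
            ∑ j ∈ wts K (n - 1) w, L j (w.embedding x) •
              ∑ μ ∈ Finset.range m, P w j μ (fun _ => cr x) := by
          apply Finset.sum_congr rfl
          intro j hj
          rw [mem_wts] at hj
          rw [hLx w j hj.1.1, smul_eq_mul, mul_comm]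
          congr 1
          rw [← sum_ite_range m (m + 1) (Nat.le_succ m), Finset.sum_range]
          apply Finset.sum_congr rfl
          intro μ _
          rw [if_neg (show ¬ j = n by omega)]
          split_ifs <;> simp
        by_cases hw : w.IsReal → Odd n
        · have e4 : wts K n w = insert n (wts K (n - 1) w) := by
            ext j
            rw [Finset.mem_insert, mem_wts, mem_wts]
            constructor
            · rintro ⟨⟨h2, h3⟩, h4⟩
              by_cases hj : j = n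
              · exact Or.inl hj
              · exact Or.inr ⟨⟨h2, by omega⟩, h4⟩
            · rintro (rfl | ⟨⟨h2, h3⟩, h4⟩)
              · exact ⟨⟨hn, le_rfl⟩, hw⟩
              · exact ⟨⟨h2, by omega⟩, h4⟩
          have e5 : n ∉ wts K (n - 1) w := by
            rw [mem_wts]
            rintro ⟨⟨h2, h3⟩, h4⟩
            omega
          rw [e4, Finset.sum_insert e5, e3]
          have e6 : ∑ μ : Fin (m + 1), (if n = n then kc (-T' w) (μ : ℕ) else
              if (μ : ℕ) < m then P w n μ else 0) (fun _ => cr x) = -T' w := by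
            simp only [if_true]
            rw [← Finset.sum_range (fun μ => kc (K := K) (-T' w) μ (fun _ => cr x)), sum_kc]
          rw [e6, hLx w n hn]
          ring
        · have e4 : wts K n w = wts K (n - 1) w := by
            ext j
            rw [mem_wts, mem_wts]
            constructor
            · rintro ⟨⟨h2, h3⟩, h4⟩
              have : j ≠ n := by
                rintro rfl
                exact hw h4
              exact ⟨⟨h2, by omega⟩, h4⟩
            · rintro ⟨⟨h2, h3⟩, h4⟩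
              exact ⟨⟨h2, by omega⟩, h4⟩
          rw [e4, e3, show T' w = 0 from dif_neg hw]
          ring
      rw [e1, Finset.sum_congr rfl fun w _ => e2 w, Finset.sum_sub_distrib]
      have e7 : ∑ w : InfinitePlace K, L n (w.embedding x) * T' w =
          ∑ v : Al K n, L n (v.1.embedding x) • T v := by
        have h3 : ∑ v : Al K n, L n (v.1.embedding (x : K)) • T v =
            ∑ v : Al K n, L n (v.1.embedding (x : K)) • T' v.1 := by
          apply Finset.sum_congr rfl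
          intro v _
          rw [show T' v.1 = T v from dif_pos v.2]
        rw [h3, ← Finset.sum_subtype
          (Finset.univ.filter fun v : InfinitePlace K => v.IsReal → Odd n)
          (by simp) (fun v => L n (v.embedding (x : K)) • T' v), Finset.sum_filter]
        apply Finset.sum_congr rfl
        intro w _
        split_ifs with hw
        · rfl
        · rw [show T' w = 0 from dif_neg hw, mul_zero]
      rw [e7]
      linarith [h1])
  have h1 := key.2 v.1 n (mem_wts.2 ⟨⟨hn, le_rfl⟩, v.2⟩) 0 0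
  rw [if_pos rfl] at h1
  have h2 : kc (K := K) (-T' v.1) 0 (fun _ => 0) = -T' v.1 := rfl
  have h3 : T' v.1 = T v := dif_pos v.2
  have h4 : -T' v.1 = 0 := by
    rw [← h2]
    exact h1
  rw [h3] at h4
  linarith

/-- the regulators of the elements of `A_n` span `ℝ^(d_n)`. -/
theorem span_top (hK : SpanPerN K)
    (hX : ∀ x : K, x ≠ 0 → (∀ v : InfinitePlace K, ‖v.embedding x‖ < 1) → x ∈ X)
    (hL : ∀ (n : ℕ) (z : ℂ), 2 ≤ n → 0 < ‖z‖ → ‖z‖ < 1 → L n z = Lcv n z) (n : ℕ) :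
    2 ≤ n → (∀ m, 2 ≤ m → m < n → (∀ α ∈ A X S m, reg X L m α = 0 → α ∈ S m) ∧
      Module.rank ℚ (Reg X L S m) ≤ Fintype.card (Al K m)) →
    Submodule.span ℝ (Reg X L S n : Set (Al K n → ℝ)) = ⊤ := by
  classical
  induction n using Nat.strong_induction_on with
  | _ n ih =>
    intro hn hU
    by_contra hne
    obtain ⟨c, hc0, hc⟩ : ∃ c : (Al K n → ℝ) →ₗ[ℝ] ℝ, c ≠ 0 ∧
        ∀ r ∈ Reg X L S n, c r = 0 := by
      obtain ⟨c, hc, hle⟩ := Submodule.exists_le_ker_of_lt_top _ (lt_top_iff_ne_top.2 hne)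
      exact ⟨c, hc, fun r hr => hle (Submodule.subset_span hr)⟩
    have hkill : ∀ α ∈ A X S n, ((c.restrictScalars ℚ) ∘ₗ reg X L n) α = 0 := fun α hα =>
      hc _ ⟨α, hα, rfl⟩
    have hform : HasForm X L ℝ (n - 1) (fun x => ∑ v : Al K n,
        L n (v.1.embedding (x : K)) • c (Pi.single v 1)) := by
      obtain ⟨k, rfl⟩ : ∃ k, n = k + 2 := ⟨n - 2, by omega⟩
      cases k with
      | zero =>
        obtain ⟨f, hf⟩ := factor (delta2 X) ((c.restrictScalars ℚ) ∘ₗ reg X L 2)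
          (fun α hα => hkill α hα)
        refine (hasForm_delta f _).congr fun x => ?_
        rw [← hf, ← apply_T]
        rfl
      | succ k =>
        obtain ⟨f, hf⟩ := factor (deltaS X (S (k + 2)))
          ((c.restrictScalars ℚ) ∘ₗ reg X L (k + 3)) (fun α hα => hkill α hα)
        have h2 := (formOf k (fun m hm hk => (hU m hm (by omega)).1)
          (fun m hm hk => (hU m hm (by omega)).2)
          (fun m hm hk => ih m (by omega) hm fun m' hm' hlt => hU m' hm' (by omega))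
          (VK K →ₗ[ℝ] ℝ) (cur _ f) (fun α hα => cur_zero _ f α hα)).shift
        refine HasForm.congr h2 fun x => ?_
        rw [cur_cr, ← deltaS_single, ← hf, ← apply_T]
        rfl
    apply hc0
    apply LinearMap.pi_ext'
    intro v
    apply LinearMap.ext_ring
    rw [LinearMap.comp_apply, LinearMap.zero_comp, LinearMap.zero_apply]
    exact no_form hK hX hL n hn (fun v => c (Pi.single v 1)) hform v

theorem card_Al (K : Type) [Field K] [NumberField K] (n : ℕ) :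
    Fintype.card (Al K n) = dn K n := by
  classical
  unfold dn
  split_ifs with h
  · rw [← InfinitePlace.card_eq_nrRealPlaces_add_nrComplexPlaces]
    exact Fintype.card_congr (Equiv.subtypeUnivEquiv fun v _ => h)
  · unfold InfinitePlace.nrComplexPlaces
    apply Fintype.card_congr
    apply Equiv.subtypeEquivRight
    intro v
    rw [← InfinitePlace.not_isReal_iff_isComplex]
    exact ⟨fun h1 h2 => h (h1 h2), fun h1 h2 => absurd h2 h1⟩

theorem C_eq (n : ℕ) (hn : 2 ≤ n) : C X L n = ZA X L n ⊓ LinearMap.ker (reg X L n) := by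
  obtain ⟨k, rfl⟩ : ∃ k, n = k + 2 := ⟨n - 2, by omega⟩
  cases k <;> rfl

theorem rank_Bl (n : ℕ) (hn : 2 ≤ n) :
    Module.rank ℚ (Bl X L n) = Module.rank ℚ (Reg X L (C X L) n) := by
  let r : ZA X L n →ₗ[ℚ] (Al K n → ℝ) := (reg X L n).domRestrict (ZA X L n)
  have h1 : (C X L n).submoduleOf (ZA X L n) = LinearMap.ker r := by
    rw [C_eq n hn]
    ext a
    constructor
    · intro h
      exact h.2
    · intro h
      exact ⟨a.2, h⟩
  have h2 : LinearMap.range r = Reg X L (C X L) n := by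
    unfold Reg
    ext a
    constructor
    · rintro ⟨b, rfl⟩
      exact ⟨b.1, b.2, rfl⟩
    · rintro ⟨b, hb, rfl⟩
      exact ⟨⟨b, hb⟩, rfl⟩
  unfold Bl
  rw [← h2, h1]
  exact LinearEquiv.rank_eq (r.quotKerEquivRange)

theorem set_eq (S : ℕ → Submodule ℚ (X →₀ ℚ)) (n : ℕ) :
    {r | ∃ α ∈ A X S n, r = reg X L n α} = (Reg X L S n : Set (Al K n → ℝ)) := by
  ext r
  constructor
  · rintro ⟨α, hα, rfl⟩
    exact ⟨α, hα, rfl⟩
  · rintro ⟨α, hα, rfl⟩
    exact ⟨α, hα, rfl⟩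

/-- the statement for general groups of relations. -/
theorem general (hK : SpanPerN K)
    (hX : ∀ x : K, x ≠ 0 → (∀ v : InfinitePlace K, ‖v.embedding x‖ < 1) → x ∈ X)
    (hL : ∀ (n : ℕ) (z : ℂ), 2 ≤ n → 0 < ‖z‖ → ‖z‖ < 1 → L n z = Lcv n z)
    (S : ℕ → Submodule ℚ (X →₀ ℚ)) (n : ℕ) (hn : 2 ≤ n)
    (h : ∀ m, 2 ≤ m → m < n → (∀ α ∈ A X S m, reg X L m α = 0 → α ∈ S m) ∧
      Module.rank ℚ ((A X S m).map (reg X L m)) ≤ dn K m) :
    Submodule.span ℝ {r | ∃ α ∈ A X S n, r = reg X L n α} = ⊤ := by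
  rw [set_eq]
  exact span_top hK hX hL n hn fun m hm hlt => ⟨(h m hm hlt).1, by
    rw [card_Al]; exact (h m hm hlt).2⟩

/-- Zagier's groups. -/
theorem zagier (hK : SpanPerN K)
    (hX : ∀ x : K, x ≠ 0 → (∀ v : InfinitePlace K, ‖v.embedding x‖ < 1) → x ∈ X)
    (hL : ∀ (n : ℕ) (z : ℂ), 2 ≤ n → 0 < ‖z‖ → ‖z‖ < 1 → L n z = Lcv n z) :
    (∀ n, 2 ≤ n → (∀ m, 2 ≤ m → m < n → Module.rank ℚ (Bl X L m) ≤ dn K m) →
      Submodule.span ℝ {r | ∃ α ∈ ZA X L n, r = reg X L n α} = ⊤) ∧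
    ∀ n, 2 ≤ n → (∀ m, 2 ≤ m → m ≤ n → Module.rank ℚ (Bl X L m) ≤ dn K m) →
      Module.rank ℚ (Bl X L n) = dn K n ∧
      ∀ Λ : Submodule ℚ (Al K n → ℝ), (∀ α ∈ ZA X L n, reg X L n α ∈ Λ) →
        Module.rank ℚ Λ ≤ dn K n → ∀ r ∈ Λ, ∃ α ∈ ZA X L n, reg X L n α = r := by
  have h1 : ∀ n, 2 ≤ n → (∀ m, 2 ≤ m → m < n → Module.rank ℚ (Bl X L m) ≤ dn K m) →
      Submodule.span ℝ (Reg X L (C X L) n : Set (Al K n → ℝ)) = ⊤ := by
    intro n hn h
    exact span_top hK hX hL n hn fun m hm hlt => ⟨fun α hα hr => by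
      rw [C_eq m hm]; exact ⟨hα, hr⟩, by
      rw [card_Al, ← rank_Bl m hm]; exact h m hm hlt⟩
  refine ⟨fun n hn h => by rw [set_eq]; exact h1 n hn h, fun n hn h => ?_⟩
  have h2 := h1 n hn fun m hm hlt => h m hm hlt.le
  have h3 := h n hn le_rfl
  rw [rank_Bl n hn, ← card_Al] at h3
  obtain ⟨hfin, hcard⟩ := finrank_eq _ h3 h2
  have h4 : Module.rank ℚ (Reg X L (C X L) n) = dn K n := by
    rw [← Module.finrank_eq_rank, hcard, card_Al]
  refine ⟨by rw [rank_Bl n hn]; exact h4, fun Λ hle hΛ r hr => ?_⟩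
  have h5 : Module.Finite ℚ Λ := by
    rw [← Module.rank_lt_aleph0_iff]
    exact lt_of_le_of_lt hΛ (Cardinal.natCast_lt_aleph0)
  have hle' : Reg X L (C X L) n ≤ Λ := by
    rintro _ ⟨α, hα, rfl⟩
    exact hle α hα
  have h8 : Reg X L (C X L) n = Λ := by
    refine Submodule.eq_of_le_of_finrank_le hle' ?_
    rw [← Module.finrank_eq_rank] at hΛ h4
    have h6 : Module.finrank ℚ Λ ≤ dn K n := by exact_mod_cast hΛ
    have h7 : Module.finrank ℚ (Reg X L (C X L) n) = dn K n := by exact_mod_cast h4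
    omega
  rw [← h8] at hr
  obtain ⟨α, hα, rfl⟩ := hr
  exact ⟨α, hα, rfl⟩

end forms

end Pool.Agent.T9h5.NF
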