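import Pool.Agent.T9h77.NF.Spec

/-!
# Zagier's groups for a number field: definitions

`K` is a number field, `X ⊆ K` a set (for Zagier's conjecture: `X = K ∖ {0,1}`), `L n : ℂ → ℝ` the
functions `L_n` (for Zagier's conjecture: the single valued polylogarithms), `n ≥ 2`.
-/

set_option autoImplicit false

namespace Pool.Agent.T9h5.NF

open NumberField
open scoped TensorProduct

section

variable (K : Type) [Field K] [NumberField K]

/-- The infinite places which occur in weight `n`: all infinite places if `n` is odd, the complex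
ones if `n` is even. -/
abbrev Al (n : ℕ) : Type := {v : InfinitePlace K // v.IsReal → Odd n}

noncomputable instance instFintypeAl (n : ℕ) : Fintype (Al K n) := Fintype.ofFinite _

/-- `d_n = r_1 + r_2` for odd `n` and `d_n = r_2` for even `n`. -/
noncomputable def dn (n : ℕ) : ℕ :=
  if Odd n then InfinitePlace.nrRealPlaces K + InfinitePlace.nrComplexPlaces K
  else InfinitePlace.nrComplexPlaces K

/-- `K^× ⊗ ℚ`. -/
abbrev VQ : Type := ℚ ⊗[ℤ] Additive Kˣ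

variable {K}

/-- the class of `x` in `K^× ⊗ ℚ` (`0` for `x = 0`). -/
noncomputable def cq (x : K) : VQ K := (1 : ℚ) ⊗ₜ[ℤ] H39Gon.cl x

variable (X : Set K) (L : ℕ → ℂ → ℝ)

/-- the regulator `ℚ[X] → ∏_v ℝ`, `[x] ↦ (L_n(σ_v(x)))_v`. -/
noncomputable def reg (n : ℕ) : (X →₀ ℚ) →ₗ[ℚ] (Al K n → ℝ) :=
  Finsupp.linearCombination ℚ (fun (x : X) (v : Al K n) => L n (v.1.embedding (x : K)))

/-- `δ_2 : ℚ[X] → Λ²(K^× ⊗ ℚ)`, `[x] ↦ (1 - x) ∧ x`. -/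
noncomputable def delta2 : (X →₀ ℚ) →ₗ[ℚ] ⋀[ℚ]^2 (VQ K) :=
  Finsupp.linearCombination ℚ
    (fun x : X => exteriorPower.ιMulti ℚ 2 ![cq (1 - (x : K)), cq (x : K)])

/-- `ℚ[X] → (ℚ[X]/S) ⊗ K^×`, `[x] ↦ [x] ⊗ x`. -/
noncomputable def deltaS (S : Submodule ℚ (X →₀ ℚ)) :
    (X →₀ ℚ) →ₗ[ℚ] ((X →₀ ℚ) ⧸ S) ⊗[ℚ] VQ K :=
  Finsupp.linearCombination ℚ
    (fun x : X => S.mkQ (Finsupp.single x 1) ⊗ₜ[ℚ] cq (x : K))

/-- The kernels `A_n ⊆ ℚ[X]`, `n ≥ 2`, for given groups of relations `S_m ⊆ ℚ[X]`: `A_2 = ker δ_2`,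
and `A_(m+1)` is the kernel of `δ_(m+1) : ℚ[X] → (ℚ[X]/S_m) ⊗ K^×`, `[x] ↦ [x] ⊗ x`. -/
noncomputable def A (S : ℕ → Submodule ℚ (X →₀ ℚ)) : ℕ → Submodule ℚ (X →₀ ℚ)
  | 0 => ⊤
  | 1 => ⊤
  | 2 => LinearMap.ker (delta2 X)
  | (n + 3) => LinearMap.ker (deltaS X (S (n + 2)))

/-- Zagier's groups `C_n(K) ⊗ ℚ` (`n ≥ 2`): the elements of `A_n(K)` all of whose regulators
`L_n(σ_v(·))` vanish, where `A_n(K)` is formed with the relations `C_(n-1)(K)`. -/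
noncomputable def C : ℕ → Submodule ℚ (X →₀ ℚ)
  | 0 => ⊤
  | 1 => ⊤
  | 2 => LinearMap.ker (delta2 X) ⊓ LinearMap.ker (reg X L 2)
  | (n + 3) => LinearMap.ker (deltaS X (C (n + 2))) ⊓ LinearMap.ker (reg X L (n + 3))

/-- Zagier's groups `A_n(K) ⊗ ℚ`. -/
noncomputable abbrev ZA (n : ℕ) : Submodule ℚ (X →₀ ℚ) := A X (C X L) n

/-- Zagier's group `A_n(K) ⊗ ℚ / C_n(K) ⊗ ℚ`. -/
abbrev Bl (n : ℕ) : Type := ZA X L n ⧸ (C X L n).submoduleOf (ZA X L n)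

/-- The group of the regulators `(L_n(σ_v(α)))_v`, `α ∈ A_n`. -/
noncomputable def Reg (S : ℕ → Submodule ℚ (X →₀ ℚ)) (n : ℕ) : Submodule ℚ (Al K n → ℝ) :=
  (A X S n).map (reg X L n)

end

end Pool.Agent.T9h5.NF
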